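import Mathlib
open Filter Topology

namespace Pool.Agent.Results.MP_33858f_an.DomainSubspace

/-- The pair `(E, F)` has the weak maximizing property: every bounded operator `T : E → F` that
admits a maximizing sequence of unit vectors which is not weakly null attains its norm. -/
def HasWMP (𝕜 : Type) [RCLike 𝕜] (E F : Type) [NormedAddCommGroup E] [NormedSpace 𝕜 E]
    [NormedAddCommGroup F] [NormedSpace 𝕜 F] : Prop :=
  ∀ T : E →L[𝕜] F,
    (∃ x : ℕ → E, (∀ n, ‖x n‖ = 1) ∧ Tendsto (fun n => ‖T (x n)‖) atTop (𝓝 ‖T‖) ∧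
      ¬ (∀ f : E →L[𝕜] 𝕜, Tendsto (fun n => f (x n)) atTop (𝓝 0))) →
    ∃ x : E, ‖x‖ = 1 ∧ ‖T x‖ = ‖T‖

instance fact4 : Fact ((1:ENNReal) ≤ 4) := ⟨by norm_num⟩

section lpgen
variable {𝕜 : Type*} [RCLike 𝕜] {X : ℕ → Type*} [∀ n, NormedAddCommGroup (X n)]
  [∀ n, NormedSpace 𝕜 (X n)]

omit [∀ n, NormedSpace 𝕜 (X n)] in
theorem n4 (f : lp X 4) : ‖f‖ ^ 4 = ∑' n, ‖f n‖ ^ 4 := by
  have h := lp.norm_rpow_eq_tsum (p := 4) (by simp) f
  simpa using h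

omit [∀ n, NormedSpace 𝕜 (X n)] in
theorem s4 (f : lp X 4) : Summable (fun n => ‖f n‖ ^ 4) := by
  have h := (lp.memℓp f).summable (p := 4) (by simp)
  simpa using h

omit [∀ n, NormedSpace 𝕜 (X n)] in
theorem mem4 {f : ∀ n, X n} (h : Summable (fun n => ‖f n‖ ^ 4)) : Memℓp f 4 := by
  apply memℓp_gen
  simpa using h

/-- Truncation to the first `N` coordinates. -/
noncomputable def trunc (N : ℕ) (f : lp X 4) : lp X 4 :=
  ∑ n ∈ Finset.range N, lp.single 4 n (f n)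

omit [∀ n, NormedSpace 𝕜 (X n)] in
theorem trunc_apply (N : ℕ) (f : lp X 4) (m : ℕ) :
    (trunc N f) m = if m < N then f m else 0 := by
  unfold trunc
  rw [lp.coeFn_sum, Finset.sum_apply]
  by_cases hm : m < N
  · rw [if_pos hm, Finset.sum_eq_single m]
    · simp
    · intro b _ hb
      rw [lp.single_apply_ne]
      exact hb.symm
    · intro h; exact absurd (Finset.mem_range.2 hm) h
  · rw [if_neg hm]
    apply Finset.sum_eq_zero
    intro b hb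
    rw [lp.single_apply_ne]
    rintro rfl
    exact hm (Finset.mem_range.1 hb)

omit [∀ n, NormedSpace 𝕜 (X n)] in
theorem tendsto_trunc (f : lp X 4) : Tendsto (fun N => ‖f - trunc N f‖) atTop (𝓝 0) := by
  have h := (lp.hasSum_single (p := 4) (by simp) f).tendsto_sum_nat
  have h2 : Tendsto (fun N => f - trunc N f) atTop (𝓝 (f - f)) := tendsto_const_nhds.sub h
  rw [sub_self] at h2
  simpa using h2.norm

omit [∀ n, NormedSpace 𝕜 (X n)] in
theorem norm_trunc_le (N : ℕ) (f : lp X 4) : ‖trunc N f‖ ≤ ∑ n ∈ Finset.range N, ‖f n‖ := by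
  unfold trunc
  refine (norm_sum_le _ _).trans (Finset.sum_le_sum ?_)
  intro n _
  rw [lp.norm_single (by norm_num)]

theorem asymp {ι : Type*} {l : Filter ι} (w : ι → lp X 4) (hw : ∀ k, ‖w k‖ ≤ 1)
    (h0 : ∀ n, Tendsto (fun k => ‖w k n‖) l (𝓝 0)) (x : lp X 4) (τ : ℝ) (hτ : 0 < τ)
    (ε : ℝ) (hε : 0 < ε) :
    ∀ᶠ k in l, ∀ t : 𝕜, ‖t‖ ≤ τ → ‖x + t • w k‖ ^ 4 ≤ ‖x‖ ^ 4 + τ ^ 4 + ε := by
  set R : ℝ := (‖x‖ ^ 4 + τ ^ 4) ^ ((1:ℝ) / 4) with hR
  have hS : 0 ≤ ‖x‖ ^ 4 + τ ^ 4 := by positivity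
  have hR0 : 0 ≤ R := Real.rpow_nonneg hS _
  have hR4 : R ^ 4 = ‖x‖ ^ 4 + τ ^ 4 := by
    rw [hR, ← Real.rpow_natCast, ← Real.rpow_mul hS]
    norm_num
  -- continuity
  have hc : Tendsto (fun s : ℝ => (R + s) ^ 4) (𝓝 0) (𝓝 ((R + 0) ^ 4)) :=
    (Continuous.tendsto (by fun_prop) 0)
  have hev : ∀ᶠ s in 𝓝 (0:ℝ), (R + s) ^ 4 < R ^ 4 + ε := by
    apply hc.eventually_lt_const
    simpa using hε
  obtain ⟨δ, hδ, hδ2⟩ := Metric.eventually_nhds_iff.1 hev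
  -- choose N
  have hN : ∀ᶠ N in atTop, ‖x - trunc N x‖ < δ / 4 :=
    (tendsto_trunc x).eventually_lt_const (by positivity)
  obtain ⟨N, hN⟩ := hN.exists
  have hk : Tendsto (fun k => τ * ∑ n ∈ Finset.range N, ‖w k n‖) l (𝓝 (τ * ∑ n ∈ Finset.range N, 0)) := by
    apply Tendsto.const_mul
    exact tendsto_finsetSum _ (fun n _ => h0 n)
  have hk2 : ∀ᶠ k in l, τ * ∑ n ∈ Finset.range N, ‖w k n‖ < δ / 4 := by
    apply hk.eventually_lt_const
    simp; positivity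
  filter_upwards [hk2] with k hk t ht
  have hdecomp : x + t • w k = (trunc N x + t • (w k - trunc N (w k))) + (x - trunc N x)
      + t • trunc N (w k) := by
    rw [smul_sub]; abel
  have h1 : ‖trunc N x + t • (w k - trunc N (w k))‖ ^ 4 ≤ R ^ 4 := by
    rw [hR4, n4]
    have hb : ∀ n, ‖(trunc N x + t • (w k - trunc N (w k))) n‖ ^ 4 ≤ ‖x n‖ ^ 4 + τ ^ 4 * ‖w k n‖ ^ 4 := by
      intro n
      have : (trunc N x + t • (w k - trunc N (w k))) n = if n < N then x n else t • w k n := by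
        simp only [lp.coeFn_add, lp.coeFn_smul, lp.coeFn_sub, Pi.add_apply, Pi.smul_apply, Pi.sub_apply, trunc_apply]
        split_ifs <;> simp
      rw [this]
      split_ifs
      · have : 0 ≤ τ ^ 4 * ‖w k n‖ ^ 4 := by positivity
        linarith
      · rw [norm_smul, mul_pow]
        have h3 : ‖t‖ ^ 4 * ‖w k n‖ ^ 4 ≤ τ ^ 4 * ‖w k n‖ ^ 4 := by gcongr
        have : 0 ≤ ‖x n‖ ^ 4 := by positivity
        linarith
    have hsum : Summable (fun n => ‖x n‖ ^ 4 + τ ^ 4 * ‖w k n‖ ^ 4) :=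
      (s4 x).add ((s4 (w k)).mul_left _)
    refine ((s4 _).tsum_le_tsum hb hsum).trans ?_
    rw [(s4 x).tsum_add ((s4 (w k)).mul_left _), tsum_mul_left, ← n4, ← n4]
    have : ‖w k‖ ^ 4 ≤ 1 := pow_le_one₀ (norm_nonneg _) (hw k)
    nlinarith [pow_pos hτ 4]
  have h1' : ‖trunc N x + t • (w k - trunc N (w k))‖ ≤ R :=
    le_of_pow_le_pow_left₀ (by norm_num) hR0 h1
  have h2 : ‖t • trunc N (w k)‖ ≤ δ / 4 := by
    rw [norm_smul]
    refine le_trans ?_ hk.le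
    gcongr
    exact norm_trunc_le N (w k)
  have h3 : ‖x + t • w k‖ ≤ R + δ / 2 := by
    rw [hdecomp]
    refine (norm_add₃_le).trans ?_
    linarith
  calc ‖x + t • w k‖ ^ 4 ≤ (R + δ / 2) ^ 4 := by gcongr
    _ ≤ R ^ 4 + ε := by
      apply le_of_lt
      apply hδ2
      rw [dist_zero_right, Real.norm_eq_abs, abs_of_pos (by positivity)]
      linarith
    _ = ‖x‖ ^ 4 + τ ^ 4 + ε := by rw [hR4]

end lpgen

section delpech
variable {𝕜 : Type*} [RCLike 𝕜] {V : Type*} [NormedAddCommGroup V] [NormedSpace 𝕜 V]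
  {H : Type*} [NormedAddCommGroup H] [InnerProductSpace 𝕜 H]

theorem delpech {ι : Type*} {l : Filter ι} (w : ι → V) (T : V →L[𝕜] H)
    (hyp : ∀ x : V, ∀ τ : ℝ, 0 < τ → ∀ ε : ℝ, 0 < ε → ∀ᶠ k in l, ∀ t : 𝕜, ‖t‖ ≤ τ →
      ‖x + t • w k‖ ^ 4 ≤ ‖x‖ ^ 4 + τ ^ 4 + ε) :
    Tendsto (fun k => ‖T (w k)‖) l (𝓝 0) := by
  set M := ‖T‖ with hM
  have key : ∀ τ : ℝ, 0 < τ → τ < 1 → ∀ᶠ k in l, ‖T (w k)‖ ^ 2 ≤ (M ^ 2 + 1) * τ ^ 2 := by
    intro τ hτ hτ1
    -- choose x with ‖x‖ ≤ 1, ‖T x‖^2 ≥ M^2 - τ^4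
    obtain ⟨x, hx1, hx2⟩ : ∃ x : V, ‖x‖ ≤ 1 ∧ M ^ 2 - τ ^ 4 ≤ ‖T x‖ ^ 2 := by
      by_cases hM0 : M ^ 2 - τ ^ 4 ≤ 0
      · exact ⟨0, by simp, by simpa using hM0⟩
      · push Not at hM0
        have hlt : Real.sqrt (M ^ 2 - τ ^ 4) < ‖T‖ := by
          rw [Real.sqrt_lt' ]
          · rw [← hM]
            have : 0 < τ ^ 4 := by positivity
            linarith
          · rw [← hM]
            rcases (norm_nonneg T).eq_or_lt with h | h
            · exfalso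
              rw [hM, ← h] at hM0
              have : 0 < τ ^ 4 := by positivity
              linarith [hM0]
            · exact h
        obtain ⟨x, hx, hx'⟩ := T.exists_lt_apply_of_lt_opNorm hlt
        refine ⟨x, hx.le, ?_⟩
        have := Real.lt_sq_of_sqrt_lt hx'
        exact this.le
    filter_upwards [hyp x τ hτ (τ ^ 4) (by positivity)] with k hk
    -- choose sign
    obtain ⟨t, ht, hre⟩ : ∃ t : 𝕜, ‖t‖ = τ ∧ 0 ≤ RCLike.re (inner 𝕜 (T x) (t • T (w k))) := by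
      by_cases h : 0 ≤ RCLike.re (inner 𝕜 (T x) (T (w k)))
      · refine ⟨(τ : 𝕜), by simp [abs_of_pos hτ], ?_⟩
        rw [inner_smul_right, RCLike.re_ofReal_mul]
        positivity
      · push Not at h
        refine ⟨((-τ : ℝ) : 𝕜), by simp [abs_of_pos hτ], ?_⟩
        rw [inner_smul_right, RCLike.re_ofReal_mul]
        nlinarith
    have h4 := hk t ht.le
    have h5 : ‖T (x + t • w k)‖ ≤ M * ‖x + t • w k‖ := T.le_opNorm _
    have h6 : ‖T (x + t • w k)‖ ^ 2 = ‖T x‖ ^ 2 + 2 * RCLike.re (inner 𝕜 (T x) (t • T (w k)))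
        + τ ^ 2 * ‖T (w k)‖ ^ 2 := by
      rw [map_add, map_smul, @norm_add_sq 𝕜, norm_smul, ht]
      ring
    have h7 : ‖x + t • w k‖ ^ 2 ≤ 1 + τ ^ 4 := by
      have hx4 : ‖x‖ ^ 4 ≤ 1 := pow_le_one₀ (norm_nonneg _) hx1
      have : (‖x + t • w k‖ ^ 2) ^ 2 ≤ (1 + τ ^ 4) ^ 2 := by
        calc (‖x + t • w k‖ ^ 2) ^ 2 = ‖x + t • w k‖ ^ 4 := by ring
          _ ≤ _ := h4
          _ ≤ _ := by nlinarith [pow_pos hτ 4]
      exact le_of_pow_le_pow_left₀ (by norm_num) (by positivity) this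
    have h8 : ‖T (x + t • w k)‖ ^ 2 ≤ M ^ 2 * (1 + τ ^ 4) := by
      calc ‖T (x + t • w k)‖ ^ 2 ≤ (M * ‖x + t • w k‖) ^ 2 := by gcongr
        _ = M ^ 2 * ‖x + t • w k‖ ^ 2 := by ring
        _ ≤ _ := by gcongr
    have h9 : τ ^ 2 * ‖T (w k)‖ ^ 2 ≤ τ ^ 2 * ((M ^ 2 + 1) * τ ^ 2) := by nlinarith
    exact le_of_mul_le_mul_left h9 (by positivity)
  rw [Metric.tendsto_nhds]
  intro ε hε
  -- choose τ with (M^2+1) τ^2 < ε^2
  obtain ⟨τ, hτ, hτ1, hτ2⟩ : ∃ τ : ℝ, 0 < τ ∧ τ < 1 ∧ (M ^ 2 + 1) * τ ^ 2 < ε ^ 2 := by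
    have h1 : 0 < M ^ 2 + 1 := by positivity
    refine ⟨min (1/2) (ε / (2 * (M ^ 2 + 1))), by positivity, ?_, ?_⟩
    · exact (min_le_left _ _).trans_lt (by norm_num)
    · have h2 : min (1/2) (ε / (2 * (M ^ 2 + 1))) ≤ ε / (2 * (M ^ 2 + 1)) := min_le_right _ _
      calc (M ^ 2 + 1) * (min (1/2) (ε / (2 * (M ^ 2 + 1)))) ^ 2
          ≤ (M ^ 2 + 1) * (ε / (2 * (M ^ 2 + 1))) ^ 2 := by gcongr
        _ = ε ^ 2 / (4 * (M ^ 2 + 1)) := by field_simp; ring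
        _ < ε ^ 2 := by
          rw [div_lt_iff₀ (by positivity)]
          nlinarith [sq_nonneg M, pow_pos hε 2]
  filter_upwards [key τ hτ hτ1] with k hk
  rw [dist_zero_right, norm_norm]
  exact lt_of_pow_lt_pow_left₀ 2 hε.le (hk.trans_lt hτ2)

end delpech

section consequences
variable {𝕜 : Type*} [RCLike 𝕜] {X : ℕ → Type*} [∀ n, NormedAddCommGroup (X n)]
  [∀ n, NormedSpace 𝕜 (X n)]
  {H : Type*} [NormedAddCommGroup H] [InnerProductSpace 𝕜 H]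

/-- Pitt-type statement for the `4`-sum. -/
theorem tendsto_of_coord {ι : Type*} {l : Filter ι} (T : lp X 4 →L[𝕜] H) (w : ι → lp X 4)
    (C : ℝ) (hw : ∀ k, ‖w k‖ ≤ C)
    (h0 : ∀ n, Tendsto (fun k => ‖w k n‖) l (𝓝 0)) :
    Tendsto (fun k => ‖T (w k)‖) l (𝓝 0) := by
  set D : ℝ := max C 1 with hD
  have hD0 : 0 < D := lt_of_lt_of_le one_pos (le_max_right _ _)
  have h1 : Tendsto (fun k => ‖T (((D⁻¹ : ℝ) : 𝕜) • w k)‖) l (𝓝 0) := by
    apply delpech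
    intro x τ hτ ε hε
    apply asymp (𝕜 := 𝕜) (fun k => ((D⁻¹ : ℝ) : 𝕜) • w k) _ _ x τ hτ ε hε
    · intro k
      rw [norm_smul, RCLike.norm_ofReal, abs_of_pos (inv_pos.2 hD0), inv_mul_le_iff₀ hD0, mul_one]
      exact (hw k).trans (le_max_left _ _)
    · intro n
      have := (h0 n).const_mul (D⁻¹)
      rw [mul_zero] at this
      refine this.congr (fun k => ?_)
      rw [lp.coeFn_smul, Pi.smul_apply, norm_smul, RCLike.norm_ofReal, abs_of_pos (inv_pos.2 hD0)]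
  have h2 := h1.const_mul D
  rw [mul_zero] at h2
  refine h2.congr (fun k => ?_)
  rw [map_smul, norm_smul, RCLike.norm_ofReal, abs_of_pos (inv_pos.2 hD0), ← mul_assoc,
    mul_inv_cancel₀ hD0.ne', one_mul]

theorem tail_small (T : lp X 4 →L[𝕜] H) (ε : ℝ) (hε : 0 < ε) :
    ∃ N : ℕ, ∀ w : lp X 4, (∀ n < N, w n = 0) → ‖T w‖ ≤ ε * ‖w‖ := by
  by_contra hcon
  push Not at hcon
  choose w hw1 hw2 using hcon
  have hpos : ∀ N, 0 < ‖w N‖ := by
    intro N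
    rcases (norm_nonneg (w N)).eq_or_lt with h | h
    · exfalso
      have h0 : w N = 0 := norm_eq_zero.1 h.symm
      have := hw2 N
      rw [h0] at this
      simp at this
    · exact h
  have h1 := tendsto_of_coord (l := atTop) T (fun N => ((‖w N‖⁻¹ : ℝ) : 𝕜) • w N) 1 (by
    intro N
    rw [norm_smul, RCLike.norm_ofReal, abs_of_pos (inv_pos.2 (hpos N)), inv_mul_cancel₀ (hpos N).ne'])
    (by
      intro n
      apply tendsto_const_nhds.congr'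
      filter_upwards [eventually_gt_atTop n] with N hN
      rw [lp.coeFn_smul, Pi.smul_apply, hw1 N n hN]
      simp)
  have h2 : ∀ N, ε ≤ ‖T (((‖w N‖⁻¹ : ℝ) : 𝕜) • w N)‖ := by
    intro N
    rw [map_smul, norm_smul, RCLike.norm_ofReal, abs_of_pos (inv_pos.2 (hpos N)),
      le_inv_mul_iff₀ (hpos N), mul_comm]
    exact (hw2 N).le
  have h3 : ε ≤ 0 := ge_of_tendsto h1 (Eventually.of_forall h2)
  linarith

end consequences

section spaces
variable (𝕜 : Type) [RCLike 𝕜]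

/-- The base space `ℓ⁴`. -/
abbrev G : Type := lp (fun _ : ℕ => 𝕜) 4

variable {𝕜}

/-- Sum of the `N` largest moduli of coordinates. -/
noncomputable def topSum (N : ℕ) (v : G 𝕜) : ℝ :=
  ⨆ A : {A : Finset ℕ // A.card ≤ N}, ∑ j ∈ A.1, ‖v j‖

theorem sum_le_card (N : ℕ) (v : G 𝕜) (A : Finset ℕ) (hA : A.card ≤ N) :
    ∑ j ∈ A, ‖v j‖ ≤ N * ‖v‖ := by
  calc ∑ j ∈ A, ‖v j‖ ≤ ∑ j ∈ A, ‖v‖ := Finset.sum_le_sum (fun j _ => lp.norm_apply_le_norm (by norm_num) v j)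
    _ = A.card * ‖v‖ := by simp
    _ ≤ N * ‖v‖ := by gcongr

instance (N : ℕ) : Nonempty {A : Finset ℕ // A.card ≤ N} := ⟨⟨∅, by simp⟩⟩

theorem bdd_topSum (N : ℕ) (v : G 𝕜) :
    BddAbove (Set.range (fun A : {A : Finset ℕ // A.card ≤ N} => ∑ j ∈ A.1, ‖v j‖)) := by
  refine ⟨N * ‖v‖, ?_⟩
  rintro _ ⟨A, rfl⟩
  exact sum_le_card N v A.1 A.2

theorem le_topSum (N : ℕ) (v : G 𝕜) (A : Finset ℕ) (hA : A.card ≤ N) :
    ∑ j ∈ A, ‖v j‖ ≤ topSum N v :=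
  le_ciSup (bdd_topSum N v) ⟨A, hA⟩

theorem topSum_le (N : ℕ) (v : G 𝕜) (c : ℝ) (h : ∀ A : Finset ℕ, A.card ≤ N → ∑ j ∈ A, ‖v j‖ ≤ c) :
    topSum N v ≤ c :=
  ciSup_le (fun A => h A.1 A.2)

theorem topSum_nonneg (N : ℕ) (v : G 𝕜) : 0 ≤ topSum N v := by
  simpa using le_topSum N v ∅ (by simp)

theorem topSum_add (N : ℕ) (v w : G 𝕜) : topSum N (v + w) ≤ topSum N v + topSum N w := by
  apply topSum_le
  intro A hA
  calc ∑ j ∈ A, ‖(v + w) j‖ ≤ ∑ j ∈ A, (‖v j‖ + ‖w j‖) :=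
        Finset.sum_le_sum (fun j _ => norm_add_le _ _)
    _ = ∑ j ∈ A, ‖v j‖ + ∑ j ∈ A, ‖w j‖ := Finset.sum_add_distrib
    _ ≤ _ := add_le_add (le_topSum N v A hA) (le_topSum N w A hA)

theorem topSum_smul_le (N : ℕ) (c : 𝕜) (v : G 𝕜) : topSum N (c • v) ≤ ‖c‖ * topSum N v := by
  apply topSum_le
  intro A hA
  calc ∑ j ∈ A, ‖(c • v) j‖ = ∑ j ∈ A, ‖c‖ * ‖v j‖ :=
        Finset.sum_congr rfl (fun j _ => by rw [lp.coeFn_smul, Pi.smul_apply, norm_smul])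
    _ = ‖c‖ * ∑ j ∈ A, ‖v j‖ := by rw [Finset.mul_sum]
    _ ≤ _ := by
      gcongr
      exact le_topSum N v A hA

theorem topSum_smul (N : ℕ) (c : 𝕜) (v : G 𝕜) : topSum N (c • v) = ‖c‖ * topSum N v := by
  apply le_antisymm (topSum_smul_le N c v)
  by_cases hc : c = 0
  · subst hc
    simp only [norm_zero, zero_mul]
    exact topSum_nonneg _ _
  · have h := topSum_smul_le N c⁻¹ (c • v)
    rw [smul_smul, inv_mul_cancel₀ hc, one_smul, norm_inv] at h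
    rwa [← div_eq_inv_mul, le_div_iff₀ (norm_pos_iff.2 hc), mul_comm] at h

theorem topSum_le_mul (N : ℕ) (v : G 𝕜) : topSum N v ≤ N * ‖v‖ :=
  topSum_le N v _ (fun A hA => sum_le_card N v A hA)

variable (𝕜)
/-- `ℓ⁴` renormed by `‖v‖ + topSum N v`. -/
def XS (_N : ℕ) : Type := G 𝕜

variable {𝕜}

noncomputable instance (N : ℕ) : AddCommGroup (XS 𝕜 N) := inferInstanceAs (AddCommGroup (G 𝕜))
noncomputable instance (N : ℕ) : Module 𝕜 (XS 𝕜 N) := inferInstanceAs (Module 𝕜 (G 𝕜))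

/-- The identity map. -/
noncomputable def toG (N : ℕ) : XS 𝕜 N ≃ₗ[𝕜] G 𝕜 := LinearEquiv.refl 𝕜 (G 𝕜)

noncomputable instance (N : ℕ) : Norm (XS 𝕜 N) := ⟨fun v => ‖toG N v‖ + topSum N (toG N v)⟩

theorem norm_XS (N : ℕ) (v : XS 𝕜 N) : ‖v‖ = ‖toG N v‖ + topSum N (toG N v) := rfl

theorem coreXS (N : ℕ) : NormedSpace.Core 𝕜 (XS 𝕜 N) where
  norm_nonneg v := by
    rw [norm_XS]
    exact add_nonneg (norm_nonneg _) (topSum_nonneg _ _)
  norm_smul c v := by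
    rw [norm_XS, norm_XS, map_smul, norm_smul, topSum_smul]; ring
  norm_triangle v w := by
    rw [norm_XS, norm_XS, norm_XS, map_add]
    have := topSum_add N (toG N v) (toG N w)
    have := norm_add_le (toG N v) (toG N w)
    linarith
  norm_eq_zero_iff v := by
    rw [norm_XS]
    constructor
    · intro h
      have h1 := norm_nonneg (toG N v)
      have h2 := topSum_nonneg N (toG N v)
      have h3 : ‖toG N v‖ = 0 := by linarith
      rw [norm_eq_zero] at h3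
      exact (toG N).map_eq_zero_iff.1 h3
    · rintro rfl
      have := topSum_le_mul N (toG N (0 : XS 𝕜 N))
      have h2 := topSum_nonneg N (toG N (0 : XS 𝕜 N))
      rw [map_zero] at *
      rw [norm_zero] at *
      linarith

noncomputable instance (N : ℕ) : NormedAddCommGroup (XS 𝕜 N) := NormedAddCommGroup.ofCore (coreXS N)
noncomputable instance (N : ℕ) : NormedSpace 𝕜 (XS 𝕜 N) := NormedSpace.ofCore (coreXS N)

theorem norm_toG_le (N : ℕ) (v : XS 𝕜 N) : ‖toG N v‖ ≤ ‖v‖ := by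
  have := topSum_nonneg N (toG N v)
  have h := norm_XS N v
  linarith

theorem norm_le_toG (N : ℕ) (v : XS 𝕜 N) : ‖v‖ ≤ (1 + N) * ‖toG N v‖ := by
  have := topSum_le_mul N (toG N v)
  have h := norm_XS N v
  linarith

/-- The identity as a continuous linear equivalence. -/
noncomputable def toGL (N : ℕ) : XS 𝕜 N ≃L[𝕜] G 𝕜 :=
  (toG N).toContinuousLinearEquivOfBounds 1 (1 + N) (by simpa using norm_toG_le N)
    (by
      intro v
      have := norm_le_toG N ((toG N).symm v)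
      simpa using this)

instance (N : ℕ) : CompleteSpace (XS 𝕜 N) :=
  (completeSpace_congr (e := (toGL (𝕜 := 𝕜) N).toEquiv) (toGL N).isUniformEmbedding).2 inferInstance


variable (𝕜) in
/-- The space `E`: the `ℓ⁴`-sum of the renormed copies of `ℓ⁴`. -/
abbrev EE : Type := lp (fun n : ℕ => XS 𝕜 (8 ^ n)) 4

theorem norm_sub_trunc_le {X : ℕ → Type*} [∀ n, NormedAddCommGroup (X n)] (N : ℕ) (f : lp X 4) :
    ‖f - trunc N f‖ ≤ ‖f‖ := by
  refine le_of_pow_le_pow_left₀ (n := 4) (by norm_num) (norm_nonneg _) ?_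
  rw [n4, n4]
  refine (s4 _).tsum_le_tsum (fun n => ?_) (s4 f)
  rw [lp.coeFn_sub, Pi.sub_apply, trunc_apply]
  split_ifs
  · simp
  · simp

variable {H : Type*} [NormedAddCommGroup H] [InnerProductSpace 𝕜 H]

theorem main_compact {ι : Type*} {l : Filter ι} (T : EE 𝕜 →L[𝕜] H) (w : ι → EE 𝕜) (C : ℝ)
    (hw : ∀ k, ‖w k‖ ≤ C) (h0 : ∀ n j, Tendsto (fun k => toG _ (w k n) j) l (𝓝 0)) :
    Tendsto (fun k => ‖T (w k)‖) l (𝓝 0) := by
  have hblock : ∀ n, Tendsto (fun k => ‖T (lp.single 4 n (w k n))‖) l (𝓝 0) := by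
    intro n
    set U : G 𝕜 →L[𝕜] H := T.comp ((lp.singleContinuousLinearMap 𝕜 (fun n : ℕ => XS 𝕜 (8 ^ n)) 4 n).comp
      ((toGL (𝕜 := 𝕜) (8 ^ n)).symm : G 𝕜 →L[𝕜] XS 𝕜 (8 ^ n))) with hU
    have h1 := tendsto_of_coord (X := fun _ : ℕ => 𝕜) (l := l) U (fun k => toG (8 ^ n) (w k n)) C (by
      intro k
      exact (norm_toG_le _ _).trans ((lp.norm_apply_le_norm (by norm_num) (w k) n).trans (hw k)))
      (by
        intro j
        simpa using (h0 n j).norm)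
    exact h1
  have htr : ∀ N, Tendsto (fun k => ‖T (trunc N (w k))‖) l (𝓝 0) := by
    intro N
    have h1 : Tendsto (fun k => ∑ n ∈ Finset.range N, ‖T (lp.single 4 n (w k n))‖) l
        (𝓝 (∑ n ∈ Finset.range N, (0:ℝ))) := tendsto_finsetSum _ (fun n _ => hblock n)
    rw [Finset.sum_const_zero] at h1
    refine squeeze_zero (fun _ => norm_nonneg _) (fun k => ?_) h1
    unfold trunc
    rw [map_sum]
    exact norm_sum_le _ _
  rw [Metric.tendsto_nhds]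
  intro ε hε
  have hD0 : 0 < max C 1 := lt_of_lt_of_le one_pos (le_max_right _ _)
  obtain ⟨N, hN⟩ := tail_small T (ε / (2 * max C 1)) (by positivity)
  filter_upwards [(htr N).eventually_lt_const (half_pos hε)] with k hk
  rw [dist_zero_right, norm_norm]
  have h2 : ‖T (w k - trunc N (w k))‖ ≤ ε / 2 := by
    refine (hN _ ?_).trans ?_
    · intro n hn
      rw [lp.coeFn_sub, Pi.sub_apply, trunc_apply, if_pos hn, sub_self]
    · calc ε / (2 * max C 1) * ‖w k - trunc N (w k)‖ ≤ ε / (2 * max C 1) * max C 1 := by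
            gcongr
            exact (norm_sub_trunc_le N (w k)).trans ((hw k).trans (le_max_left _ _))
        _ = ε / 2 := by field_simp
  have h3 : T (w k) = T (trunc N (w k)) + T (w k - trunc N (w k)) := by
    rw [← map_add]; congr 1; abel
  rw [h3]
  refine (norm_add_le _ _).trans_lt ?_
  linarith

theorem exists_ultra_limit {α : Type*} [PseudoMetricSpace α] [ProperSpace α] (𝒰 : Ultrafilter ℕ)
    (f : ℕ → α) (c : α) (r : ℝ) (hf : ∀ k, dist (f k) c ≤ r) :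
    ∃ a, dist a c ≤ r ∧ Tendsto f 𝒰 (𝓝 a) := by
  obtain ⟨a, ha, h⟩ := (isCompact_closedBall c r).ultrafilter_le_nhds (𝒰.map f) (by
    rw [le_principal_iff, Ultrafilter.mem_coe, Ultrafilter.mem_map]
    exact Filter.univ_mem' (fun k => by simpa using hf k))
  exact ⟨a, by simpa using ha, h⟩

theorem exists_weak_limit (x : ℕ → EE 𝕜) (hx : ∀ k, ‖x k‖ ≤ 1) (𝒰 : Ultrafilter ℕ) :
    ∃ y : EE 𝕜, ‖y‖ ≤ 1 ∧ ∀ n j, Tendsto (fun k => toG _ (x k n) j) 𝒰 (𝓝 (toG _ (y n) j)) := by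
  have hxn : ∀ k n, ‖x k n‖ ≤ 1 := fun k n =>
    (lp.norm_apply_le_norm (by norm_num) (x k) n).trans (hx k)
  have hxG : ∀ k n, ‖toG _ (x k n)‖ ≤ 1 := fun k n => (norm_toG_le _ _).trans (hxn k n)
  have hxj : ∀ k n j, ‖toG _ (x k n) j‖ ≤ 1 := fun k n j =>
    (lp.norm_apply_le_norm (by norm_num) (toG _ (x k n)) j).trans (hxG k n)
  have hts : ∀ k n, topSum (8 ^ n) (toG _ (x k n)) ≤ 1 := fun k n => by
    have h1 := norm_XS _ (x k n)
    have h2 := hxn k n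
    have h3 := norm_nonneg (toG _ (x k n))
    linarith
  have hb : ∀ n j, ∃ b : 𝕜, Tendsto (fun k => toG _ (x k n) j) 𝒰 (𝓝 b) := by
    intro n j
    obtain ⟨a, -, h⟩ := exists_ultra_limit 𝒰 (fun k => toG _ (x k n) j) 0 1 (by
      intro k; simpa using hxj k n j)
    exact ⟨a, h⟩
  choose b hb using hb
  have hpi : ∀ n, Tendsto (id fun k => ((toG _ (x k n) : G 𝕜) : ℕ → 𝕜)) 𝒰 (𝓝 (b n)) := by
    intro n
    rw [id, tendsto_pi_nhds]
    intro j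
    exact hb n j
  have hmem : ∀ n, Memℓp (b n) 4 := by
    intro n
    refine lp.memℓp_of_tendsto (F := fun k => toG _ (x k n)) ?_ (hpi n)
    rw [isBounded_iff_forall_norm_le]
    exact ⟨1, by rintro _ ⟨k, rfl⟩; exact hxG k n⟩
  set v : ∀ n, G 𝕜 := fun n => ⟨b n, hmem n⟩ with hv
  have hα : ∀ n, ∃ α : ℝ, Tendsto (fun k => ‖toG _ (x k n)‖) 𝒰 (𝓝 α) := by
    intro n
    obtain ⟨a, -, h⟩ := exists_ultra_limit 𝒰 (fun k => ‖toG _ (x k n)‖) 0 1 (by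
      intro k; simpa using hxG k n)
    exact ⟨a, h⟩
  choose α hα using hα
  have hβ : ∀ n, ∃ β : ℝ, Tendsto (fun k => topSum (8 ^ n) (toG _ (x k n))) 𝒰 (𝓝 β) := by
    intro n
    obtain ⟨a, -, h⟩ := exists_ultra_limit 𝒰 (fun k => topSum (8 ^ n) (toG _ (x k n))) 0 1 (by
      intro k
      rw [dist_zero_right, Real.norm_eq_abs, abs_of_nonneg (topSum_nonneg _ _)]
      exact hts k n)
    exact ⟨a, h⟩
  choose β hβ using hβ
  have h1 : ∀ n, ‖v n‖ ≤ α n := by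
    intro n
    apply le_of_forall_pos_le_add
    intro ε hε
    refine lp.norm_le_of_tendsto (l := (𝒰 : Filter ℕ)) (F := fun k => toG _ (x k n)) ?_ (hpi n)
    have := (hα n).eventually_lt_const (lt_add_of_pos_right (α n) hε)
    exact this.mono (fun k hk => hk.le)
  have h2 : ∀ n, topSum (8 ^ n) (v n) ≤ β n := by
    intro n
    apply topSum_le
    intro A hA
    have h3 : Tendsto (fun k => ∑ j ∈ A, ‖toG _ (x k n) j‖) 𝒰 (𝓝 (∑ j ∈ A, ‖b n j‖)) :=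
      tendsto_finsetSum _ (fun j _ => (hb n j).norm)
    exact le_of_tendsto_of_tendsto' h3 (hβ n) (fun k => le_topSum _ _ A hA)
  set y : ∀ n, XS 𝕜 (8 ^ n) := fun n => (toG _).symm (v n) with hy
  have hyn : ∀ n, ‖y n‖ ≤ α n + β n := by
    intro n
    rw [norm_XS]
    simp only [hy, LinearEquiv.apply_symm_apply]
    exact add_le_add (h1 n) (h2 n)
  have hlim : ∀ n, Tendsto (fun k => ‖x k n‖) 𝒰 (𝓝 (α n + β n)) := fun n => (hα n).add (hβ n)
  have hsum : ∀ s : Finset ℕ, ∑ n ∈ s, ‖y n‖ ^ 4 ≤ 1 := by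
    intro s
    calc ∑ n ∈ s, ‖y n‖ ^ 4 ≤ ∑ n ∈ s, (α n + β n) ^ 4 := by
          apply Finset.sum_le_sum
          intro n _
          gcongr
          exact hyn n
      _ ≤ 1 := by
          have h4 : Tendsto (fun k => ∑ n ∈ s, ‖x k n‖ ^ 4) 𝒰 (𝓝 (∑ n ∈ s, (α n + β n) ^ 4)) :=
            tendsto_finsetSum _ (fun n _ => (hlim n).pow 4)
          refine le_of_tendsto' h4 (fun k => ?_)
          calc ∑ n ∈ s, ‖x k n‖ ^ 4 ≤ ∑' n, ‖x k n‖ ^ 4 :=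
                (s4 (x k)).sum_le_tsum s (fun n _ => by positivity)
            _ = ‖x k‖ ^ 4 := (n4 _).symm
            _ ≤ 1 := pow_le_one₀ (norm_nonneg _) (hx k)
  have hymem : Memℓp y 4 := by
    refine memℓp_gen' (C := 1) ?_
    intro s
    simpa using hsum s
  refine ⟨⟨y, hymem⟩, ?_, ?_⟩
  · refine lp.norm_le_of_forall_sum_le (by simp) zero_le_one ?_
    intro s
    simpa using hsum s
  · intro n j
    exact hb n j

/-- Every operator on `E × 𝕜` into a Hilbert space attains its norm. -/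
theorem attains (T : (EE 𝕜 × 𝕜) →L[𝕜] H) : ∃ z, ‖z‖ = 1 ∧ ‖T z‖ = ‖T‖ := by
  have h1 : ∀ k : ℕ, ∃ z : EE 𝕜 × 𝕜, ‖z‖ < 1 ∧ ‖T‖ - 1 / (k + 1) < ‖T z‖ := by
    intro k
    apply T.exists_lt_apply_of_lt_opNorm
    have : (0:ℝ) < 1 / (k + 1) := by positivity
    linarith
  choose z hz1 hz2 using h1
  set 𝒰 : Ultrafilter ℕ := hyperfilter ℕ with h𝒰
  have h𝒰le : (𝒰 : Filter ℕ) ≤ atTop := Nat.hyperfilter_le_atTop
  have hTz : Tendsto (fun k => ‖T (z k)‖) atTop (𝓝 ‖T‖) := by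
    have h2 : Tendsto (fun k : ℕ => ‖T‖ - 1 / ((k:ℝ) + 1)) atTop (𝓝 (‖T‖ - 0)) :=
      tendsto_const_nhds.sub tendsto_one_div_add_atTop_nhds_zero_nat
    rw [sub_zero] at h2
    refine tendsto_of_tendsto_of_tendsto_of_le_of_le h2 tendsto_const_nhds (fun k => (hz2 k).le) ?_
    intro k
    calc ‖T (z k)‖ ≤ ‖T‖ * ‖z k‖ := T.le_opNorm _
      _ ≤ ‖T‖ * 1 := by
        gcongr
        exact (hz1 k).le
      _ = ‖T‖ := mul_one _
  have hx : ∀ k, ‖(z k).1‖ ≤ 1 := fun k => (norm_fst_le (z k)).trans (hz1 k).le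
  have ht : ∀ k, ‖(z k).2‖ ≤ 1 := fun k => (norm_snd_le (z k)).trans (hz1 k).le
  obtain ⟨y, hy, hyc⟩ := exists_weak_limit (fun k => (z k).1) hx 𝒰
  obtain ⟨t, ht1, htc⟩ := exists_ultra_limit 𝒰 (fun k => (z k).2) 0 1 (by
    intro k; simpa using ht k)
  have h3 : Tendsto (fun k => ‖(T.comp (ContinuousLinearMap.inl 𝕜 (EE 𝕜) 𝕜)) ((z k).1 - y)‖) 𝒰 (𝓝 0) := by
    apply main_compact _ _ 2
    · intro k
      refine (norm_sub_le _ _).trans ?_
      linarith [hx k]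
    · intro n j
      have := (hyc n j).sub_const (toG _ (y n) j)
      rw [sub_self] at this
      exact this
  have h4 : Tendsto (fun k => ‖(T.comp (ContinuousLinearMap.inr 𝕜 (EE 𝕜) 𝕜)) ((z k).2 - t)‖) 𝒰 (𝓝 0) := by
    have h5 : Tendsto (fun k => (z k).2 - t) 𝒰 (𝓝 0) := by
      have := htc.sub_const t
      rwa [sub_self] at this
    have h6 := ((T.comp (ContinuousLinearMap.inr 𝕜 (EE 𝕜) 𝕜)).continuous.tendsto 0).comp h5
    rw [map_zero] at h6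
    simpa using h6.norm
  have h7 : Tendsto (fun k => ‖T (z k) - T (y, t)‖) 𝒰 (𝓝 0) := by
    have h8 := h3.add h4
    rw [add_zero] at h8
    refine squeeze_zero (fun _ => norm_nonneg _) (fun k => ?_) h8
    have : T (z k) - T (y, t) = (T.comp (ContinuousLinearMap.inl 𝕜 (EE 𝕜) 𝕜)) ((z k).1 - y)
        + (T.comp (ContinuousLinearMap.inr 𝕜 (EE 𝕜) 𝕜)) ((z k).2 - t) := by
      rw [← map_sub]
      simp only [ContinuousLinearMap.comp_apply, ContinuousLinearMap.inl_apply, ContinuousLinearMap.inr_apply]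
      rw [← map_add]
      congr 1
      ext1 <;> simp
    rw [this]
    exact norm_add_le _ _
  have h9 : Tendsto (fun k => T (z k)) 𝒰 (𝓝 (T (y, t))) := by
    rw [tendsto_iff_norm_sub_tendsto_zero]
    exact h7
  have h10 : ‖T (y, t)‖ = ‖T‖ :=
    tendsto_nhds_unique h9.norm (hTz.mono_left h𝒰le)
  rcases (norm_nonneg T).eq_or_lt with h0 | hpos
  · refine ⟨(0, 1), ?_, ?_⟩
    · rw [Prod.norm_mk]; simp
    · rw [← h0]
      have := T.le_opNorm (0, 1)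
      rw [← h0, zero_mul] at this
      exact le_antisymm this (norm_nonneg _)
  · refine ⟨(y, t), ?_, h10⟩
    apply le_antisymm
    · rw [Prod.norm_mk]
      exact max_le hy (by simpa using ht1)
    · have := T.le_opNorm (y, t)
      rw [h10] at this
      have h11 : ‖T‖ * 1 ≤ ‖T‖ * ‖(y, t)‖ := by simpa using this
      exact le_of_mul_le_mul_left h11 hpos


theorem level (α : ℕ → ℝ) (hα : ∀ j, 0 ≤ α j)
    (h : ∀ n : ℕ, ∀ A : Finset ℕ, A.card ≤ 8 ^ n → ∑ j ∈ A, α j ≤ 2 ^ n) (J : Finset ℕ) :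
    ∑ j ∈ J, α j ^ 2 ≤ 4 := by
  classical
  have hcard : ∀ n : ℕ, (J.filter (fun j => (1/4:ℝ) ^ n < α j)).card ≤ 8 ^ n := by
    intro n
    by_contra hcon
    push Not at hcon
    obtain ⟨A, hA, hAc⟩ := Finset.exists_subset_card_eq hcon.le
    have h1 := h n A hAc.le
    have hne : A.Nonempty := by
      rw [← Finset.card_pos, hAc]; positivity
    have h2 : ∑ j ∈ A, (1/4:ℝ) ^ n < ∑ j ∈ A, α j := by
      apply Finset.sum_lt_sum_of_nonempty hne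
      intro j hj
      exact (Finset.mem_filter.1 (hA hj)).2
    rw [Finset.sum_const, hAc, nsmul_eq_mul] at h2
    push_cast at h2
    rw [← mul_pow] at h2
    norm_num at h2
    linarith
  have hf : ∀ n : ℕ, ∑ j ∈ J.filter (fun j => (1/4:ℝ) ^ n < α j), α j ^ 2 ≤ 4 * (1 - (1/2) ^ n) := by
    intro n
    induction n with
    | zero =>
      have : J.filter (fun j => (1/4:ℝ) ^ 0 < α j) = ∅ := by
        apply Finset.filter_eq_empty_iff.2
        intro j _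
        have := h 0 {j} (by simp)
        simp at this
        simpa using this
      rw [this]; simp
    | succ n ih =>
      have hsplit : ∑ j ∈ J.filter (fun j => (1/4:ℝ) ^ (n+1) < α j), α j ^ 2
          ≤ ∑ j ∈ J.filter (fun j => (1/4:ℝ) ^ n < α j), α j ^ 2
            + ∑ j ∈ J.filter (fun j => (1/4:ℝ) ^ (n+1) < α j), (1/4) ^ n * α j := by
        rw [Finset.sum_filter, Finset.sum_filter, Finset.sum_filter, ← Finset.sum_add_distrib]
        apply Finset.sum_le_sum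
        intro j _
        have hq : (1/4:ℝ) ^ (n+1) ≤ (1/4) ^ n := by
          rw [pow_succ]
          have : (0:ℝ) < (1/4) ^ n := by positivity
          linarith
        by_cases h1 : (1/4:ℝ) ^ (n+1) < α j
        · rw [if_pos h1, if_pos h1]
          have h0 := hα j
          have h3 : (0:ℝ) ≤ (1/4) ^ n * α j := by positivity
          by_cases h2 : (1/4:ℝ) ^ n < α j
          · rw [if_pos h2]; linarith
          · rw [if_neg h2, zero_add]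
            push Not at h2
            rw [sq]
            gcongr
        · rw [if_neg h1, if_neg h1]
          by_cases h2 : (1/4:ℝ) ^ n < α j
          · exact absurd (hq.trans_lt h2) h1
          · rw [if_neg h2]; simp
      have h4 : ∑ j ∈ J.filter (fun j => (1/4:ℝ) ^ (n+1) < α j), (1/4) ^ n * α j ≤ (1/4) ^ n * 2 ^ (n+1) := by
        rw [← Finset.mul_sum]
        gcongr
        exact h (n+1) _ (hcard (n+1))
      have h5 : (1/4:ℝ) ^ n * 2 ^ (n+1) = 2 * (1/2) ^ n := by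
        rw [pow_succ, ← mul_assoc, ← mul_pow]; norm_num; ring
      have h6 : (1/2:ℝ) ^ (n+1) = (1/2) * (1/2) ^ n := by rw [pow_succ]; ring
      rw [h6]
      linarith
  -- limit
  have hbound : ∀ n : ℕ, ∑ j ∈ J, α j ^ 2 ≤ 4 + J.card * (1/4) ^ n := by
    intro n
    have h1 : ∑ j ∈ J, α j ^ 2 ≤ ∑ j ∈ J, ((if (1/4:ℝ) ^ n < α j then α j ^ 2 else 0) + (1/4) ^ n) := by
      apply Finset.sum_le_sum
      intro j _
      have h3 : (0:ℝ) < (1/4) ^ n := by positivity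
      by_cases h2 : (1/4:ℝ) ^ n < α j
      · rw [if_pos h2]; linarith
      · rw [if_neg h2, zero_add]
        push Not at h2
        have h4 : (1/4:ℝ) ^ n ≤ 1 := pow_le_one₀ (by norm_num) (by norm_num)
        nlinarith [hα j]
    rw [Finset.sum_add_distrib, ← Finset.sum_filter, Finset.sum_const, nsmul_eq_mul] at h1
    have h2 := hf n
    have h3 : (0:ℝ) < (1/2) ^ n := by positivity
    linarith
  have hlim : Tendsto (fun n : ℕ => (4:ℝ) + J.card * (1/4) ^ n) atTop (𝓝 (4 + J.card * 0)) :=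
    (tendsto_const_nhds).add (tendsto_const_nhds.mul
      (tendsto_pow_atTop_nhds_zero_of_lt_one (by norm_num) (by norm_num)))
  simp only [mul_zero, add_zero] at hlim
  exact ge_of_tendsto' hlim hbound

/-- The coordinate functional. -/
noncomputable def cf (n j : ℕ) : (EE 𝕜 × 𝕜) →L[𝕜] 𝕜 :=
  LinearMap.mkContinuous
    { toFun := fun z => toG _ (z.1 n) j
      map_add' := fun z z' => by
        rw [Prod.fst_add, lp.coeFn_add, Pi.add_apply, map_add, lp.coeFn_add, Pi.add_apply]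
      map_smul' := fun c z => by
        rw [Prod.smul_fst, lp.coeFn_smul, Pi.smul_apply, map_smul, lp.coeFn_smul, Pi.smul_apply]
        rfl } 1
    (fun z => by
      rw [one_mul]
      exact (lp.norm_apply_le_norm (by norm_num) (toG _ (z.1 n)) j).trans
        ((norm_toG_le _ _).trans ((lp.norm_apply_le_norm (by norm_num) z.1 n).trans (norm_fst_le z))))

theorem cf_apply (n j : ℕ) (z : EE 𝕜 × 𝕜) : cf n j z = toG _ (z.1 n) j := rfl

variable (𝕜) in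
/-- The subspace `E₁ × 𝕜`. -/
noncomputable def E1 : Submodule 𝕜 (EE 𝕜 × 𝕜) where
  carrier := {z | ∀ n j, (2:𝕜) ^ n * cf n j z = cf 0 j z}
  zero_mem' := by intro n j; simp
  add_mem' := by
    intro a b ha hb n j
    rw [map_add, map_add, mul_add, ha n j, hb n j]
  smul_mem' := by
    intro c x hx n j
    rw [map_smul, map_smul, smul_eq_mul, smul_eq_mul, ← hx n j]
    ring

theorem mem_E1 (z : EE 𝕜 × 𝕜) : z ∈ E1 𝕜 ↔ ∀ n j, (2:𝕜) ^ n * cf n j z = cf 0 j z := Iff.rfl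

theorem isClosed_E1 : IsClosed (E1 𝕜 : Set (EE 𝕜 × 𝕜)) := by
  have : (E1 𝕜 : Set (EE 𝕜 × 𝕜)) = ⋂ n : ℕ, ⋂ j : ℕ, {z | (2:𝕜) ^ n * cf n j z = cf 0 j z} := by
    ext z
    simp [mem_E1]
  rw [this]
  refine isClosed_iInter (fun n => isClosed_iInter (fun j => ?_))
  exact isClosed_eq (by fun_prop) (by fun_prop)

/-- weights `j/(j+1)`. -/
noncomputable def lam (j : ℕ) : ℝ := j / (j + 1)

theorem lam_zero : lam 0 = 0 := by simp [lam]
theorem lam_nonneg (j : ℕ) : 0 ≤ lam j := by unfold lam; positivity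
theorem lam_le_one (j : ℕ) : lam j ≤ 1 := by
  unfold lam
  rw [div_le_one (by positivity)]
  linarith
theorem lam_lt (j : ℕ) : lam j < lam (j + 1) := by
  unfold lam
  rw [div_lt_div_iff₀ (by positivity) (by positivity)]
  push_cast
  nlinarith [(Nat.cast_nonneg j : (0:ℝ) ≤ j)]

theorem sum_sq_le (z : EE 𝕜 × 𝕜) (hz : z ∈ E1 𝕜) (J : Finset ℕ) :
    ∑ j ∈ J, ‖cf 0 j z‖ ^ 2 ≤ 4 * ‖z.1‖ ^ 2 := by
  have hkey : ∀ n : ℕ, ∀ A : Finset ℕ, A.card ≤ 8 ^ n → ∑ j ∈ A, ‖cf 0 j z‖ ≤ 2 ^ n * ‖z.1‖ := by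
    intro n A hA
    calc ∑ j ∈ A, ‖cf 0 j z‖ = ∑ j ∈ A, 2 ^ n * ‖toG _ (z.1 n) j‖ := by
          apply Finset.sum_congr rfl
          intro j _
          rw [← (mem_E1 z).1 hz n j, norm_mul, norm_pow, cf_apply]
          simp
      _ = 2 ^ n * ∑ j ∈ A, ‖toG _ (z.1 n) j‖ := by rw [Finset.mul_sum]
      _ ≤ 2 ^ n * ‖z.1‖ := by
          gcongr
          refine (le_topSum (8 ^ n) (toG _ (z.1 n)) A hA).trans ?_
          have h1 := norm_XS _ (z.1 n)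
          have h2 : ‖z.1 n‖ ≤ ‖z.1‖ := lp.norm_apply_le_norm (by norm_num) z.1 n
          have h3 := norm_nonneg (toG _ (z.1 n))
          linarith
  rcases (norm_nonneg z.1).eq_or_lt with h0 | hpos
  · have hz0 : ∀ j, ‖cf 0 j z‖ = 0 := by
      intro j
      have := hkey 0 {j} (by simp)
      rw [← h0] at this
      simp only [Finset.sum_singleton, mul_zero] at this
      exact le_antisymm this (norm_nonneg _)
    rw [← h0]
    simp [hz0]
  · have h1 := level (fun j => ‖cf 0 j z‖ / ‖z.1‖) (fun j => by positivity) (by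
      intro n A hA
      rw [← Finset.sum_div, div_le_iff₀ hpos]
      exact hkey n A hA) J
    simp only [div_pow] at h1
    rw [← Finset.sum_div, div_le_iff₀ (by positivity)] at h1
    exact h1

variable (𝕜) in
/-- The Hilbert space `ℓ²`. -/
abbrev HH : Type := lp (fun _ : ℕ => 𝕜) 2

theorem mem_S (z : EE 𝕜 × 𝕜) (hz : z ∈ E1 𝕜) :
    Memℓp (fun j => (lam j : 𝕜) * cf 0 j z) 2 := by
  refine memℓp_gen' (C := 4 * ‖z.1‖ ^ 2) ?_
  intro J
  refine le_trans (le_of_eq ?_) ((Finset.sum_le_sum (s := J) (f := fun j => ‖(lam j : 𝕜) * cf 0 j z‖ ^ 2)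
    (fun j _ => ?_)).trans (sum_sq_le z hz J))
  · simp
  · simp only [norm_mul, RCLike.norm_ofReal, abs_of_nonneg (lam_nonneg j), mul_pow]
    have h1 : lam j ^ 2 ≤ 1 := pow_le_one₀ (lam_nonneg j) (lam_le_one j)
    nlinarith [sq_nonneg ‖cf 0 j z‖]

theorem n2 (f : HH 𝕜) : ‖f‖ ^ 2 = ∑' n, ‖f n‖ ^ 2 := by
  have h := lp.norm_rpow_eq_tsum (p := 2) (by simp) f
  simpa using h

theorem s2 (f : HH 𝕜) : Summable (fun n => ‖f n‖ ^ 2) := by
  have h := (lp.memℓp f).summable (p := 2) (by simp)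
  simpa using h

variable (𝕜) in
/-- The operator `S` on `E₁ × 𝕜`. -/
noncomputable def S : E1 𝕜 →L[𝕜] HH 𝕜 :=
  LinearMap.mkContinuous
    { toFun := fun z => ⟨fun j => (lam j : 𝕜) * cf 0 j z.1, mem_S z.1 z.2⟩
      map_add' := fun z z' => by
        ext j
        simp [mul_add]
      map_smul' := fun c z => by
        ext j
        simp
        ring } 2
    (fun z => by
      refine le_of_pow_le_pow_left₀ (n := 2) (by norm_num) (by positivity) ?_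
      rw [n2]
      refine (s2 _).tsum_le_of_sum_le ?_
      intro J
      refine (Finset.sum_le_sum (s := J) (g := fun j => ‖cf 0 j z.1‖ ^ 2) (fun j _ => ?_)).trans
        ((sum_sq_le z.1 z.2 J).trans ?_)
      · simp only [LinearMap.coe_mk, AddHom.coe_mk, norm_mul, RCLike.norm_ofReal,
          abs_of_nonneg (lam_nonneg j), mul_pow]
        have h1 : lam j ^ 2 ≤ 1 := pow_le_one₀ (lam_nonneg j) (lam_le_one j)
        nlinarith [sq_nonneg ‖cf 0 j z.1‖]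
      · rw [mul_pow]
        have h2 : ‖z.1.1‖ ≤ ‖z‖ := norm_fst_le z.1
        have : ‖z.1.1‖ ^ 2 ≤ ‖z‖ ^ 2 := by gcongr
        linarith)

theorem S_apply (z : E1 𝕜) (j : ℕ) : S 𝕜 z j = (lam j : 𝕜) * cf 0 j z.1 := rfl


/-- shifted sequence -/
def shf (v : ℕ → 𝕜) : ℕ → 𝕜 := fun j => if j = 0 then 0 else v (j - 1)

theorem shf_zero (v : ℕ → 𝕜) : shf v 0 = 0 := by simp [shf]
theorem shf_succ (v : ℕ → 𝕜) (j : ℕ) : shf v (j + 1) = v j := by simp [shf]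

theorem shf_summable (v : G 𝕜) : Summable (fun j => ‖shf v j‖ ^ 4) := by
  rw [← summable_nat_add_iff 1]
  simpa [shf_succ] using s4 v

theorem shf_mem (v : G 𝕜) : Memℓp (shf v) 4 := mem4 (shf_summable v)

/-- shift on `ℓ⁴` -/
def shG (v : G 𝕜) : G 𝕜 := ⟨shf v, shf_mem v⟩

theorem shG_apply (v : G 𝕜) (j : ℕ) : shG v j = shf v j := rfl

theorem norm_shG (v : G 𝕜) : ‖shG v‖ = ‖v‖ := by
  have : ‖shG v‖ ^ 4 = ‖v‖ ^ 4 := by
    rw [n4, n4, (s4 (shG v)).tsum_eq_zero_add]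
    simp [shG_apply, shf_zero, shf_succ]
  exact (pow_left_inj₀ (norm_nonneg _) (norm_nonneg _) (by norm_num)).1 this

theorem topSum_shG (N : ℕ) (v : G 𝕜) : topSum N (shG v) ≤ topSum N v := by
  classical
  apply topSum_le
  intro A hA
  set B := (A.filter (fun j => j ≠ 0)).image (fun j => j - 1) with hB
  have hBc : B.card ≤ N := (Finset.card_image_le).trans ((Finset.card_filter_le _ _).trans hA)
  refine le_trans ?_ (le_topSum N v B hBc)
  have h1 : ∑ j ∈ A, ‖shG v j‖ = ∑ j ∈ A.filter (fun j => j ≠ 0), ‖v (j - 1)‖ := by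
    rw [Finset.sum_filter]
    apply Finset.sum_congr rfl
    intro j _
    rw [shG_apply, shf]
    split_ifs <;> simp_all
  rw [h1, hB, Finset.sum_image]
  intro a ha b hb hab
  simp only [Finset.coe_filter, Set.mem_ofPred_eq] at ha hb
  simp only at hab
  omega

/-- shift on `XS` -/
noncomputable def shX (N : ℕ) (v : XS 𝕜 N) : XS 𝕜 N := (toG N).symm (shG (toG N v))

theorem toG_shX (N : ℕ) (v : XS 𝕜 N) : toG N (shX N v) = shG (toG N v) := by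
  simp [shX]

theorem norm_shX (N : ℕ) (v : XS 𝕜 N) : ‖shX N v‖ ≤ ‖v‖ := by
  rw [norm_XS, norm_XS, toG_shX, norm_shG]
  have := topSum_shG N (toG N v)
  linarith

theorem shE_summable (x : EE 𝕜) : Summable (fun n => ‖shX (8 ^ n) (x n)‖ ^ 4) := by
  refine Summable.of_nonneg_of_le (fun n => by positivity) (fun n => ?_) (s4 x)
  have := norm_shX _ (x n)
  gcongr

/-- shift on `E` -/
noncomputable def shE (x : EE 𝕜) : EE 𝕜 := ⟨fun n => shX (8 ^ n) (x n), mem4 (shE_summable x)⟩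

theorem norm_shE (x : EE 𝕜) : ‖shE x‖ ≤ ‖x‖ := by
  refine le_of_pow_le_pow_left₀ (n := 4) (by norm_num) (norm_nonneg _) ?_
  rw [n4, n4]
  refine (s4 _).tsum_le_tsum (fun n => ?_) (s4 x)
  have : ‖(shE x) n‖ ≤ ‖x n‖ := norm_shX _ (x n)
  gcongr

theorem cf_shE (x : EE 𝕜) (t : 𝕜) (n j : ℕ) : cf n j (shE x, t) = shf (fun j => cf n j (x, t)) j := by
  rw [cf_apply]
  show toG _ (shX (8 ^ n) (x n)) j = _
  rw [toG_shX]
  rfl

theorem shE_mem (x : EE 𝕜) (t s : 𝕜) (h : (x, t) ∈ E1 𝕜) : (shE x, s) ∈ E1 𝕜 := by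
  rw [mem_E1] at h ⊢
  intro n j
  have h' : ∀ n j, (2:𝕜) ^ n * cf n j (x, s) = cf 0 j (x, s) := h
  rw [cf_shE, cf_shE]
  rcases Nat.eq_zero_or_pos j with rfl | hj
  · simp [shf_zero]
  · obtain ⟨i, rfl⟩ := Nat.exists_eq_succ_of_ne_zero hj.ne'
    rw [Nat.succ_eq_add_one, shf_succ, shf_succ]
    exact h' n i

theorem norm_S_sq (z : E1 𝕜) : ‖S 𝕜 z‖ ^ 2 = ∑' j, lam j ^ 2 * ‖cf 0 j z.1‖ ^ 2 := by
  rw [n2]
  congr 1
  ext j
  rw [S_apply, norm_mul, RCLike.norm_ofReal, abs_of_nonneg (lam_nonneg j), mul_pow]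

theorem summable_S (z : E1 𝕜) : Summable (fun j => lam j ^ 2 * ‖cf 0 j z.1‖ ^ 2) := by
  refine (s2 (S 𝕜 z)).congr (fun j => ?_)
  rw [S_apply, norm_mul, RCLike.norm_ofReal, abs_of_nonneg (lam_nonneg j), mul_pow]

/-- The key strict inequality. -/
theorem strict (z : E1 𝕜) (hz : z.1.1 ≠ 0) : ‖S 𝕜 z‖ < ‖S 𝕜‖ * ‖z.1.1‖ := by
  set z' : E1 𝕜 := ⟨(shE z.1.1, 0), shE_mem z.1.1 z.1.2 0 z.2⟩ with hz'
  have hnorm : ‖z'‖ ≤ ‖z.1.1‖ := by
    show ‖((shE z.1.1, (0:𝕜)) : EE 𝕜 × 𝕜)‖ ≤ _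
    rw [Prod.norm_mk]
    simpa using norm_shE z.1.1
  have hsq' : ‖S 𝕜 z'‖ ^ 2 = ∑' j, lam (j + 1) ^ 2 * ‖cf 0 j z.1‖ ^ 2 := by
    rw [norm_S_sq, (summable_S z').tsum_eq_zero_add]
    simp only [hz', cf_shE, shf_zero, shf_succ]
    simp
    rfl
  have hsum' : Summable (fun j => lam (j + 1) ^ 2 * ‖cf 0 j z.1‖ ^ 2) := by
    have := (summable_nat_add_iff 1).2 (summable_S z')
    simp only [hz', cf_shE, shf_succ] at this
    exact this
  -- a nonzero coordinate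
  obtain ⟨j0, hj0⟩ : ∃ j, cf 0 j z.1 ≠ 0 := by
    by_contra hcon
    push Not at hcon
    apply hz
    apply lp.ext
    funext n
    have h1 : toG _ (z.1.1 n) = 0 := by
      apply lp.ext
      funext j
      have h2 := (mem_E1 z.1).1 z.2 n j
      rw [hcon j, mul_eq_zero] at h2
      rcases h2 with h2 | h2
      · exact absurd h2 (pow_ne_zero _ two_ne_zero)
      · exact h2
    exact (toG _).map_eq_zero_iff.1 h1
  have hlt : ‖S 𝕜 z‖ ^ 2 < ‖S 𝕜 z'‖ ^ 2 := by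
    rw [norm_S_sq, hsq']
    refine Summable.tsum_lt_tsum (i := j0) (fun j => ?_) ?_ (summable_S z) hsum'
    · have h1 := lam_nonneg j
      have h2 := (lam_lt j).le
      gcongr
    · have h1 := lam_nonneg j0
      have h2 := lam_lt j0
      have h3 : 0 < ‖cf 0 j0 z.1‖ ^ 2 := by positivity
      have h4 : lam j0 ^ 2 < lam (j0 + 1) ^ 2 := by gcongr
      nlinarith
  have hlt' : ‖S 𝕜 z‖ < ‖S 𝕜 z'‖ := lt_of_pow_lt_pow_left₀ 2 (norm_nonneg _) hlt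
  refine hlt'.trans_le (((S 𝕜).le_opNorm z').trans ?_)
  gcongr

variable (𝕜) in
/-- The operator witnessing the failure of the property. -/
noncomputable def TT : E1 𝕜 →L[𝕜] HH 𝕜 :=
  S 𝕜 + ((lp.singleContinuousLinearMap 𝕜 (fun _ : ℕ => 𝕜) 2 0).comp
    ((ContinuousLinearMap.snd 𝕜 (EE 𝕜) 𝕜).comp (E1 𝕜).subtypeL))

theorem norm_TT_sq (z : E1 𝕜) : ‖TT 𝕜 z‖ ^ 2 = ‖S 𝕜 z‖ ^ 2 + ‖z.1.2‖ ^ 2 := by
  have h1 : TT 𝕜 z = S 𝕜 z + lp.single 2 0 z.1.2 := rfl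
  rw [h1, @norm_add_sq 𝕜, lp.inner_single_right, S_apply, lam_zero, lp.norm_single (by norm_num)]
  simp

theorem exists_ne_zero : ∃ z : E1 𝕜, z.1.1 ≠ 0 := by
  classical
  have hts : ∀ N : ℕ, topSum N (lp.single 4 0 (1:𝕜) : G 𝕜) ≤ 1 := by
    intro N
    apply topSum_le
    intro A hA
    calc ∑ j ∈ A, ‖(lp.single 4 0 (1:𝕜) : G 𝕜) j‖ = ∑ j ∈ A, if j = 0 then (1:ℝ) else 0 := by
          apply Finset.sum_congr rfl
          intro j _
          by_cases hj : j = 0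
          · subst hj; simp
          · rw [if_neg hj, lp.single_apply_ne _ _ _ hj, norm_zero]
      _ ≤ 1 := by
          rw [Finset.sum_ite_eq']
          split_ifs <;> norm_num
  set v : ∀ n : ℕ, XS 𝕜 (8 ^ n) := fun n => ((2:𝕜) ^ n)⁻¹ • (toG (8 ^ n)).symm (lp.single 4 0 (1:𝕜)) with hv
  have hvn : ∀ n, ‖v n‖ ≤ 2 * (1/2) ^ n := by
    intro n
    rw [hv]
    simp only
    rw [norm_smul, norm_XS, LinearEquiv.apply_symm_apply, lp.norm_single (by norm_num), norm_inv, norm_pow]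
    have h1 := hts (8 ^ n)
    simp only [RCLike.norm_ofNat, norm_one, one_div, inv_pow]
    have h2 : (0:ℝ) < (2 ^ n)⁻¹ := by positivity
    nlinarith
  have hmem : Memℓp v 4 := by
    apply mem4
    refine Summable.of_nonneg_of_le (fun n => by positivity) (fun n => ?_)
      ((summable_geometric_of_lt_one (r := (1/16:ℝ)) (by norm_num) (by norm_num)).mul_left 16)
    calc ‖v n‖ ^ 4 ≤ (2 * (1/2) ^ n) ^ 4 := by
          gcongr
          exact hvn n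
      _ = 16 * (1/16) ^ n := by
          rw [mul_pow, ← pow_mul, mul_comm n 4, pow_mul]; norm_num
  have hcf : ∀ n j, cf n j ((⟨v, hmem⟩ : EE 𝕜), (0:𝕜)) = ((2:𝕜) ^ n)⁻¹ * (lp.single 4 0 (1:𝕜) : G 𝕜) j := by
    intro n j
    rw [cf_apply]
    show toG _ (v n) j = _
    rw [hv]
    simp only
    rw [map_smul, LinearEquiv.apply_symm_apply, lp.coeFn_smul, Pi.smul_apply, smul_eq_mul]
  refine ⟨⟨((⟨v, hmem⟩ : EE 𝕜), (0:𝕜)), ?_⟩, ?_⟩
  · rw [mem_E1]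
    intro n j
    rw [hcf, hcf, ← mul_assoc, mul_inv_cancel₀ (pow_ne_zero _ two_ne_zero)]
    simp
  · intro h
    have h1 := hcf 0 0
    simp only at h
    rw [h] at h1
    have h2 : cf 0 0 ((0 : EE 𝕜), (0:𝕜)) = 0 := map_zero (cf (𝕜 := 𝕜) 0 0)
    rw [h2] at h1
    simp at h1

theorem S_pos : 0 < ‖S 𝕜‖ := by
  obtain ⟨z, hz⟩ := exists_ne_zero (𝕜 := 𝕜)
  have h := strict z hz
  have h1 := norm_nonneg (S 𝕜 z)
  have h2 := norm_nonneg z.1.1
  by_contra hcon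
  push Not at hcon
  have : ‖S 𝕜‖ * ‖z.1.1‖ ≤ 0 := mul_nonpos_of_nonpos_of_nonneg hcon h2
  linarith

theorem TT_seq (r : ℝ) (hr : r < ‖S 𝕜‖) (hr0 : 0 ≤ r) :
    ∃ z : E1 𝕜, ‖z‖ = 1 ∧ z.1.2 = 1 ∧ r ^ 2 + 1 < ‖TT 𝕜 z‖ ^ 2 := by
  obtain ⟨z, hz1, hz2⟩ := (S 𝕜).exists_lt_apply_of_lt_opNorm hr
  have hmem : (z.1.1, (1:𝕜)) ∈ E1 𝕜 := z.2
  refine ⟨⟨(z.1.1, 1), hmem⟩, ?_, rfl, ?_⟩
  · show ‖((z.1.1, (1:𝕜)) : EE 𝕜 × 𝕜)‖ = 1
    rw [Prod.norm_mk, norm_one]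
    apply max_eq_right
    exact ((norm_fst_le z.1).trans hz1.le)
  · rw [norm_TT_sq]
    have h1 : S 𝕜 ⟨(z.1.1, 1), hmem⟩ = S 𝕜 z := rfl
    rw [h1]
    simp only [norm_one]
    have : r ^ 2 < ‖S 𝕜 z‖ ^ 2 := by gcongr
    linarith

theorem norm_TT_ge : ‖S 𝕜‖ ^ 2 + 1 ≤ ‖TT 𝕜‖ ^ 2 := by
  by_contra hcon
  push Not at hcon
  have hpos := S_pos (𝕜 := 𝕜)
  -- choose r close to ‖S‖
  have hc : ContinuousAt (fun r : ℝ => r ^ 2 + 1) ‖S 𝕜‖ := by fun_prop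
  have hev : ∀ᶠ r in 𝓝 ‖S 𝕜‖, ‖TT 𝕜‖ ^ 2 < r ^ 2 + 1 := hc.eventually_const_lt hcon
  have hev2 : ∀ᶠ r in 𝓝[<] ‖S 𝕜‖, ‖TT 𝕜‖ ^ 2 < r ^ 2 + 1 := hev.filter_mono nhdsWithin_le_nhds
  have hev3 : ∀ᶠ r in 𝓝[<] ‖S 𝕜‖, 0 < r := (eventually_gt_nhds hpos).filter_mono nhdsWithin_le_nhds
  obtain ⟨r, h1, h2, h3⟩ := (hev2.and (hev3.and self_mem_nhdsWithin)).exists
  obtain ⟨z, hz1, hz2, hz3⟩ := TT_seq r h3 h2.le
  have h4 : ‖TT 𝕜 z‖ ≤ ‖TT 𝕜‖ := by
    have := (TT 𝕜).le_opNorm z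
    rwa [hz1, mul_one] at this
  have h5 : ‖TT 𝕜 z‖ ^ 2 ≤ ‖TT 𝕜‖ ^ 2 := by gcongr
  linarith

theorem not_attained (z : E1 𝕜) (hz : ‖z‖ = 1) : ‖TT 𝕜 z‖ ≠ ‖TT 𝕜‖ := by
  intro h
  have h1 := norm_TT_ge (𝕜 := 𝕜)
  rw [← h, norm_TT_sq] at h1
  have h2 : ‖z.1.2‖ ≤ 1 := (norm_snd_le z.1).trans hz.le
  have h3 : ‖z.1.1‖ ≤ 1 := (norm_fst_le z.1).trans hz.le
  have h4 : ‖z.1.2‖ ^ 2 ≤ 1 := pow_le_one₀ (norm_nonneg _) h2
  have h5 : ‖S 𝕜‖ ^ 2 ≤ ‖S 𝕜 z‖ ^ 2 := by linarith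
  have h6 : ‖S 𝕜‖ ≤ ‖S 𝕜 z‖ := le_of_pow_le_pow_left₀ (by norm_num) (norm_nonneg _) h5
  have hpos := S_pos (𝕜 := 𝕜)
  by_cases h0 : z.1.1 = 0
  · have h7 : ‖S 𝕜 z‖ ^ 2 = 0 := by
      rw [norm_S_sq]
      have : ∀ j, cf 0 j z.1 = 0 := by
        intro j
        rw [cf_apply, h0]
        simp
      simp [this]
    have h8 : ‖S 𝕜 z‖ = 0 := by simpa using h7
    linarith
  · have h7 := strict z h0
    nlinarith

end spaces

/-- There are a Banach space `E` and a closed subspace `E₁` of `E` such that the pair `(E, ℓ²)` has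
the weak maximizing property, but the pair `(E₁, ℓ²)` fails it (real or complex scalars). -/
theorem result (𝕜 : Type) [RCLike 𝕜] :
    ∃ (E : Type) (_ : NormedAddCommGroup E) (_ : NormedSpace 𝕜 E) (_ : CompleteSpace E)
      (E₁ : Submodule 𝕜 E),
      IsClosed (E₁ : Set E) ∧ HasWMP 𝕜 E (lp (fun _ : ℕ => 𝕜) 2) ∧
        ¬ HasWMP 𝕜 E₁ (lp (fun _ : ℕ => 𝕜) 2) := by
  refine ⟨EE 𝕜 × 𝕜, inferInstance, inferInstance, inferInstance, E1 𝕜, isClosed_E1, ?_, ?_⟩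
  · intro T _
    exact attains T
  · intro h
    have hpos := S_pos (𝕜 := 𝕜)
    -- norm of TT
    have hle : ∀ z : E1 𝕜, ‖z‖ ≤ 1 → ‖TT 𝕜 z‖ ≤ ‖TT 𝕜‖ := by
      intro z hz
      calc ‖TT 𝕜 z‖ ≤ ‖TT 𝕜‖ * ‖z‖ := (TT 𝕜).le_opNorm z
        _ ≤ ‖TT 𝕜‖ * 1 := by gcongr
        _ = ‖TT 𝕜‖ := mul_one _
    have hsup : ‖TT 𝕜‖ ^ 2 ≤ ‖S 𝕜‖ ^ 2 + 1 := by
      have h1 : ‖TT 𝕜‖ ≤ Real.sqrt (‖S 𝕜‖ ^ 2 + 1) := by
        apply ContinuousLinearMap.opNorm_le_bound _ (Real.sqrt_nonneg _)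
        intro z
        refine le_of_pow_le_pow_left₀ (n := 2) (by norm_num) (by positivity) ?_
        rw [mul_pow, Real.sq_sqrt (by positivity), norm_TT_sq, add_mul, one_mul]
        have h2 : ‖z.1.2‖ ≤ ‖z‖ := norm_snd_le z.1
        have h3 := (S 𝕜).le_opNorm z
        have h4 : ‖S 𝕜 z‖ ^ 2 ≤ (‖S 𝕜‖ * ‖z‖) ^ 2 := by gcongr
        have h5 : ‖z.1.2‖ ^ 2 ≤ ‖z‖ ^ 2 := by gcongr
        rw [mul_pow] at h4
        linarith
      calc ‖TT 𝕜‖ ^ 2 ≤ Real.sqrt (‖S 𝕜‖ ^ 2 + 1) ^ 2 := by gcongr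
        _ = ‖S 𝕜‖ ^ 2 + 1 := Real.sq_sqrt (by positivity)
    have hseq : ∀ k : ℕ, ∃ z : E1 𝕜, ‖z‖ = 1 ∧ z.1.2 = 1 ∧
        (max (‖S 𝕜‖ - 1 / ((k:ℝ) + 1)) 0) ^ 2 + 1 < ‖TT 𝕜 z‖ ^ 2 := by
      intro k
      apply TT_seq
      · apply max_lt _ hpos
        have : (0:ℝ) < 1 / (k + 1) := by positivity
        linarith
      · exact le_max_right _ _
    choose z hz1 hz2 hz3 using hseq
    have hmax : Tendsto (fun n => ‖TT 𝕜 (z n)‖) atTop (𝓝 ‖TT 𝕜‖) := by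
      have h1 : Tendsto (fun k : ℕ => (max (‖S 𝕜‖ - 1 / ((k:ℝ) + 1)) 0) ^ 2 + 1) atTop
          (𝓝 ((max (‖S 𝕜‖ - 0) 0) ^ 2 + 1)) := by
        apply Tendsto.add_const
        apply Tendsto.pow
        apply Tendsto.max _ tendsto_const_nhds
        exact tendsto_const_nhds.sub tendsto_one_div_add_atTop_nhds_zero_nat
      rw [sub_zero, max_eq_left hpos.le] at h1
      have h3 : ‖TT 𝕜‖ ^ 2 = ‖S 𝕜‖ ^ 2 + 1 := le_antisymm hsup norm_TT_ge
      rw [← h3] at h1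
      have h2 : Tendsto (fun k => ‖TT 𝕜 (z k)‖ ^ 2) atTop (𝓝 (‖TT 𝕜‖ ^ 2)) := by
        refine tendsto_of_tendsto_of_tendsto_of_le_of_le h1 tendsto_const_nhds
          (fun k => (hz3 k).le) (fun k => ?_)
        have := hle (z k) (hz1 k).le
        show ‖TT 𝕜 (z k)‖ ^ 2 ≤ ‖TT 𝕜‖ ^ 2
        gcongr
      have h4 := (Real.continuous_sqrt.tendsto _).comp h2
      have h5 : Real.sqrt (‖TT 𝕜‖ ^ 2) = ‖TT 𝕜‖ := Real.sqrt_sq (TT 𝕜).opNorm_nonneg
      rw [h5] at h4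
      refine h4.congr (fun k => ?_)
      exact Real.sqrt_sq (norm_nonneg _)
    have hnw : ¬ (∀ f : E1 𝕜 →L[𝕜] 𝕜, Tendsto (fun n => f (z n)) atTop (𝓝 0)) := by
      intro hw
      have h1 := hw ((ContinuousLinearMap.snd 𝕜 (EE 𝕜) 𝕜).comp (E1 𝕜).subtypeL)
      have h2 : ∀ k, ((ContinuousLinearMap.snd 𝕜 (EE 𝕜) 𝕜).comp (E1 𝕜).subtypeL) (z k) = 1 := hz2
      simp only [h2] at h1
      exact one_ne_zero (tendsto_nhds_unique tendsto_const_nhds h1)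
    obtain ⟨x, hx1, hx2⟩ := h (TT 𝕜) ⟨z, hz1, hmax, hnw⟩
    exact not_attained x hx1 hx2

end Pool.Agent.Results.MP_33858f_an.DomainSubspace
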